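import Pool.Agent.Helper71.E5.WStmts
import Pool.Agent.Helper72.E5.A

/-!
MP_efd95c_co, sheet efd5wrows, rows HDTR and HDROT: hull data under translations and rotations.
-/

set_option autoImplicit false

open Complex

namespace E5

theorem lg_add33 (x y v : ℂ) : lg (x + v) (y + v) = lg x y := by
  unfold lg AX.dl
  rw [dist_add_right]

theorem K_add33 {n : ℕ} (c : Fin n → ℂ) (v x : ℂ) :
    x ∈ AX.K 1 (fun i => c i + v) ↔ x - v ∈ AX.K 1 c := by
  rw [mem_K, mem_K]
  refine forall_congr' fun i => ?_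
  rw [← dist_add_right (x - v) (c i) v, sub_add_cancel]

theorem T_add33 {n : ℕ} (c : Fin n → ℂ) (v : ℂ) (i : Fin n) (θ : ℝ) :
    θ ∈ AX.T 1 (fun i => c i + v) i ↔ θ ∈ AX.T 1 c i := by
  unfold AX.T
  rw [Set.mem_ofPred_eq, Set.mem_ofPred_eq, K_add33]
  have : c i + v + ((1 : ℝ) : ℂ) * AX.e θ - v = c i + ((1 : ℝ) : ℂ) * AX.e θ := by ring
  rw [this]

theorem HDTR : ST_HDTR := by
  intro n c M g a b v h
  have hK : AX.K 1 (fun i => c i + v) = Homeomorph.subRight v ⁻¹' AX.K 1 c := by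
    ext x
    exact K_add33 c v x
  refine ⟨?_, ?_, h.two, h.gper, h.ginj, ?_, h.aper, h.bper, h.le, h.ltpi, ?_, ?_, ?_⟩
  · intro i j hij
    exact h.inj (add_right_cancel hij)
  · obtain ⟨x, hx⟩ := h.int
    rw [hK, ← (Homeomorph.subRight v).preimage_interior]
    exact ⟨(Homeomorph.subRight v).symm x, by
      rw [Set.mem_preimage, Homeomorph.apply_symm_apply]
      exact hx⟩
  · intro i hi
    obtain ⟨θ, hθ⟩ := hi
    exact h.cov i ⟨θ, (T_add33 c v i θ).1 hθ⟩
  · intro k θ h1 h2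
    rw [T_add33]
    exact h.mem k θ h1 h2
  · intro k
    rw [lg_add33]
    exact h.step k
  · intro k
    have := h.corner k
    linear_combination this

theorem e_add33 (s t : ℝ) : AX.e (s + t) = AX.e t * AX.e s := by
  unfold AX.e
  rw [← Complex.exp_add]
  congr 1
  push_cast
  ring

theorem norm_e33 (t : ℝ) : ‖AX.e t‖ = 1 := by
  unfold AX.e
  exact Complex.norm_exp_ofReal_mul_I t

theorem e_ne33 (t : ℝ) : AX.e t ≠ 0 := by
  unfold AX.e
  exact Complex.exp_ne_zero _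

theorem dist_mul33 (t : ℝ) (x y : ℂ) : dist (AX.e t * x) (AX.e t * y) = dist x y := by
  rw [dist_eq_norm, ← mul_sub, norm_mul, norm_e33, one_mul, dist_eq_norm]

theorem lg_mul33 (t : ℝ) (x y : ℂ) : lg (AX.e t * x) (AX.e t * y) = lg x y := by
  unfold lg AX.dl
  rw [dist_mul33]

theorem K_mul33 {n : ℕ} (c : Fin n → ℂ) (t : ℝ) (x : ℂ) :
    AX.e t * x ∈ AX.K 1 (fun i => AX.e t * c i) ↔ x ∈ AX.K 1 c := by
  rw [mem_K, mem_K]
  refine forall_congr' fun i => ?_
  rw [dist_mul33]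

theorem T_mul33 {n : ℕ} (c : Fin n → ℂ) (t : ℝ) (i : Fin n) (θ : ℝ) :
    θ + t ∈ AX.T 1 (fun i => AX.e t * c i) i ↔ θ ∈ AX.T 1 c i := by
  unfold AX.T
  rw [Set.mem_ofPred_eq, Set.mem_ofPred_eq, ← K_mul33 c t (c i + ((1 : ℝ) : ℂ) * AX.e θ)]
  have : AX.e t * c i + ((1 : ℝ) : ℂ) * AX.e (θ + t) =
      AX.e t * (c i + ((1 : ℝ) : ℂ) * AX.e θ) := by
    rw [e_add33]
    ring
  rw [this]

theorem HDROT : ST_HDROT := by
  intro n c M g a b t h
  have hK : AX.K 1 (fun i => AX.e t * c i) =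
      (Homeomorph.mulLeft₀ (AX.e t) (e_ne33 t)).symm ⁻¹' AX.K 1 c := by
    ext x
    rw [Set.mem_preimage]
    obtain ⟨y, rfl⟩ := (Homeomorph.mulLeft₀ (AX.e t) (e_ne33 t)).surjective x
    rw [Homeomorph.symm_apply_apply]
    exact K_mul33 c t y
  refine ⟨?_, ?_, h.two, h.gper, h.ginj, ?_, ?_, ?_, ?_, ?_, ?_, ?_, ?_⟩
  · intro i j hij
    exact h.inj (mul_left_cancel₀ (e_ne33 t) hij)
  · obtain ⟨x, hx⟩ := h.int
    rw [hK, ← Homeomorph.preimage_interior]
    exact ⟨Homeomorph.mulLeft₀ (AX.e t) (e_ne33 t) x, by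
      rw [Set.mem_preimage, Homeomorph.symm_apply_apply]
      exact hx⟩
  · intro i hi
    obtain ⟨θ, hθ⟩ := hi
    refine h.cov i ⟨θ - t, (T_mul33 c t i (θ - t)).1 ?_⟩
    rw [sub_add_cancel]
    exact hθ
  · intro k
    show a (k + M) + t = a k + t + 2 * Real.pi
    rw [h.aper]
    ring
  · intro k
    show b (k + M) + t = b k + t + 2 * Real.pi
    rw [h.bper]
    ring
  · intro k
    exact add_le_add_left (h.le k) t
  · intro k
    have := h.ltpi k
    show b k + t < a k + t + Real.pi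
    linarith
  · intro k θ h1 h2
    have h1' : a k + t ≤ θ := h1
    have h2' : θ < a k + t + 2 * Real.pi := h2
    have h3 := T_mul33 c t (g k) (θ - t)
    rw [sub_add_cancel] at h3
    rw [h3, h.mem k (θ - t) (by linarith) (by linarith)]
    constructor
    · intro h4
      show θ ≤ b k + t
      linarith
    · intro h4
      have h4' : θ ≤ b k + t := h4
      linarith
  · intro k
    show b k + t + lg (AX.e t * c (g k)) (AX.e t * c (g (k + 1))) = a (k + 1) + t
    rw [lg_mul33, ← h.step k]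
    ring
  · intro k
    show AX.e t * c (g k) + AX.e (b k + t) = AX.e t * c (g (k + 1)) + AX.e (a (k + 1) + t)
    rw [e_add33, e_add33, ← mul_add, ← mul_add, h.corner k]

end E5
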