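import Pool.Agent.Helper33.E5.HDT
import Pool.Agent.Helper55.E5.HDREF
import Pool.Agent.Helper55.E5.HDPERM
import Pool.Agent.Helper55.E5.HDSHIFT
import Pool.Agent.Helper71.E5.FIVE

/-!
MP_efd95c_co, sheet efd5wrows, row WNORM: names for the five points of a wheel.
-/

set_option autoImplicit false

open Complex

namespace E5

namespace H33

theorem MaxPair.shift {n : ℕ} {p q : Fin n → ℂ} (h : MaxPair p q) (u v : ℂ) :
    MaxPair (fun i => p i + u) (fun i => q i + v) := by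
  have h1 : per (fun i => p i + u) = per p := PISO n p (IsometryEquiv.addRight u)
  have h2 : per (fun i => q i + v) = per q := PISO n q (IsometryEquiv.addRight v)
  refine ⟨fun i j => ?_, by rw [h1, h2]; exact h.pos, fun p' q' h' => ?_⟩
  · rw [dist_add_right, dist_add_right]
    exact h.ctr i j
  · rw [h1, h2]
    exact h.max p' q' h'

theorem MaxPair.perm {n : ℕ} {p q : Fin n → ℂ} (h : MaxPair p q) (σ : Equiv.Perm (Fin n)) :
    MaxPair (fun i => p (σ i)) (fun i => q (σ i)) := by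
  refine ⟨fun i j => h.ctr _ _, by rw [PPERM, PPERM]; exact h.pos, fun p' q' h' => ?_⟩
  rw [PPERM, PPERM]
  exact h.max p' q' h'

theorem MaxPair.conjp {n : ℕ} {p q : Fin n → ℂ} (h : MaxPair p q) :
    MaxPair (fun i => (starRingEnd ℂ) (p i)) q := by
  have h1 : per (fun i => (starRingEnd ℂ) (p i)) = per p :=
    PISO n p (Complex.conjLIE.toIsometryEquiv)
  refine ⟨fun i j => ?_, by rw [h1]; exact h.pos, fun p' q' h' => ?_⟩
  · rw [Complex.dist_conj_conj]
    exact h.ctr i j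
  · rw [h1]
    exact h.max p' q' h'

/-- the same order after relabelling and shifts -/
theorem back {n M N : ℕ} {gp gq g h : ℤ → Fin n} (σ : Equiv.Perm (Fin n)) (s t : ℤ)
    (h1 : ∀ k, σ (g k) = gp (k + s)) (h2 : ∀ k, σ (h k) = gq (k + t)) (H : SameOrd g M h N) :
    SameOrd gp M gq N := by
  obtain ⟨φ, h3, h4, h5⟩ := H
  refine ⟨fun k => φ (k - s) + t, fun k l hkl => ?_, fun k => ?_, fun k => ?_⟩
  · have := h3 (show k - s < l - s by linarith)
    show φ (k - s) + t < φ (l - s) + t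
    linarith
  · show φ (k + M - s) + t = φ (k - s) + t + N
    have : k + (M : ℤ) - s = k - s + M := by ring
    rw [this, h4]
    ring
  · show gq (φ (k - s) + t) = gp k
    rw [← h2, h5, h1, sub_add_cancel]

theorem per4 {α : Type} {f : ℤ → α} (hf : ∀ k, f (k + 4) = f k) (m r : ℤ) :
    f (4 * m + r) = f r := by
  have := per_mul (n := 4) (f := f) (fun k => by exact_mod_cast hf k) r m
  rw [← this]
  congr 1
  push_cast
  ring

theorem eq4 {α : Type} {f g : ℤ → α} (hf : ∀ k, f (k + 4) = f k) (hg : ∀ k, g (k + 4) = g k)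
    (h0 : f 0 = g 0) (h1 : f 1 = g 1) (h2 : f 2 = g 2) (h3 : f 3 = g 3) : f = g := by
  funext k
  have e : k = 4 * (k / 4) + k % 4 := by omega
  rw [e, per4 hf, per4 hg]
  rcases (by omega : k % 4 = 0 ∨ k % 4 = 1 ∨ k % 4 = 2 ∨ k % 4 = 3) with h | h | h | h
  · rw [h]; exact h0
  · rw [h]; exact h1
  · rw [h]; exact h2
  · rw [h]; exact h3

theorem gC_per (k : ℤ) : gC (k + 4) = gC k := by
  unfold gC
  have : (k + 4) % 4 = k % 4 := by omega
  rw [this]

theorem gB_per (k : ℤ) : gB (k + 4) = gB k := by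
  unfold gB
  have : (k + 4) % 4 = k % 4 := by omega
  rw [this]

theorem gQ_per (k m : ℤ) : gQ (k + 5 * m) = gQ k := by
  unfold gQ
  have : (k + 5 * m) % 5 = k % 5 := by omega
  rw [this]

theorem six_aux (x y z : Fin 5) :
    (!decide (x ≠ 0 ∧ y ≠ 0 ∧ z ≠ 0 ∧ x ≠ 1 ∧ y ≠ 1 ∧ z ≠ 1 ∧ x ≠ y ∧ x ≠ z ∧ y ≠ z) ||
      (decide (x = 2 ∧ y = 3 ∧ z = 4) || (decide (x = 4 ∧ y = 3 ∧ z = 2) ||
      (decide (x = 3 ∧ y = 2 ∧ z = 4) || (decide (x = 4 ∧ y = 2 ∧ z = 3) ||
      (decide (x = 2 ∧ y = 4 ∧ z = 3) || decide (x = 3 ∧ y = 4 ∧ z = 2))))))) = true := by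
  revert x y z
  decide

theorem six (x y z : Fin 5) (h1 : x ≠ 0) (h2 : y ≠ 0) (h3 : z ≠ 0) (h4 : x ≠ 1) (h5 : y ≠ 1)
    (h6 : z ≠ 1) (h7 : x ≠ y) (h8 : x ≠ z) (h9 : y ≠ z) :
    (x = 2 ∧ y = 3 ∧ z = 4) ∨ (x = 4 ∧ y = 3 ∧ z = 2) ∨ (x = 3 ∧ y = 2 ∧ z = 4) ∨
      (x = 4 ∧ y = 2 ∧ z = 3) ∨ (x = 2 ∧ y = 4 ∧ z = 3) ∨ (x = 3 ∧ y = 4 ∧ z = 2) := by
  have h := six_aux x y z
  rw [Bool.or_eq_true] at h
  rcases h with h | h
  · exfalso
    rw [Bool.not_eq_true', decide_eq_false_iff_not] at h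
    exact h ⟨h1, h2, h3, h4, h5, h6, h7, h8, h9⟩
  · simpa only [Bool.or_eq_true, decide_eq_true_eq] using h

/-- the order `1, 2, 3, 4` -/
theorem same1 {g : ℤ → Fin 5} (hg : ∀ k, g (k + 4) = g k) (h0 : g 0 = 1) (h1 : g 1 = 2)
    (h2 : g 2 = 3) (h3 : g 3 = 4) : SameOrd g 4 gQ 5 := by
  refine ⟨fun k => k + 1 + k / 4, fun k l hkl => ?_, fun k => ?_, fun k => ?_⟩
  · show k + 1 + k / 4 < l + 1 + l / 4
    omega
  · show k + ((4 : ℕ) : ℤ) + 1 + (k + ((4 : ℕ) : ℤ)) / 4 = k + 1 + k / 4 + ((5 : ℕ) : ℤ)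
    push_cast
    omega
  · show gQ (k + 1 + k / 4) = g k
    have e : k = 4 * (k / 4) + k % 4 := by omega
    have e2 : g k = g (k % 4) := by
      conv_lhs => rw [e]
      exact per4 hg _ _
    have e3 : k + 1 + k / 4 = (k % 4 + 1) + 5 * (k / 4) := by omega
    rw [e2, e3, gQ_per]
    rcases (by omega : k % 4 = 0 ∨ k % 4 = 1 ∨ k % 4 = 2 ∨ k % 4 = 3) with h | h | h | h
    · rw [h, h0]; rfl
    · rw [h, h1]; rfl
    · rw [h, h2]; rfl
    · rw [h, h3]; rfl

/-- the order `1, 4, 3, 2` -/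
theorem same2 {g : ℤ → Fin 5} (hg : ∀ k, g (k + 4) = g k) (h0 : g 0 = 1) (h1 : g 1 = 4)
    (h2 : g 2 = 3) (h3 : g 3 = 2) : SameOrd g 4 (fun k => gQ (-k)) 5 := by
  refine ⟨fun k => k - 1 + (k + 3) / 4, fun k l hkl => ?_, fun k => ?_, fun k => ?_⟩
  · show k - 1 + (k + 3) / 4 < l - 1 + (l + 3) / 4
    omega
  · show k + ((4 : ℕ) : ℤ) - 1 + (k + ((4 : ℕ) : ℤ) + 3) / 4 = k - 1 + (k + 3) / 4 + ((5 : ℕ) : ℤ)
    push_cast
    omega
  · show gQ (-(k - 1 + (k + 3) / 4)) = g k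
    have e : k = 4 * (k / 4) + k % 4 := by omega
    have e2 : g k = g (k % 4) := by
      conv_lhs => rw [e]
      exact per4 hg _ _
    have e3 : -(k - 1 + (k + 3) / 4) = -(k % 4 - 1 + (k % 4 + 3) / 4) + 5 * (-(k / 4)) := by omega
    rw [e2, e3, gQ_per]
    rcases (by omega : k % 4 = 0 ∨ k % 4 = 1 ∨ k % 4 = 2 ∨ k % 4 = 3) with h | h | h | h
    · rw [h, h0]; rfl
    · rw [h, h1]; rfl
    · rw [h, h2]; rfl
    · rw [h, h3]; rfl

/-- translation of the hub to the origin -/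
theorem finC (hNOC : ST_NOC) {p q : Fin 5 → ℂ} {ap bp aq bq : ℤ → ℝ} (hmax : MaxPair p q)
    (hp : HD p 4 gC ap bp) (hq : HD q 5 gQ aq bq) (hfull : ∀ k, aq k < bq k) : False :=
  hNOC (fun i => p i + -(p 0)) (fun i => q i + -(q 0)) ap bp aq bq (MaxPair.shift hmax _ _)
    (HDTR 5 p 4 gC ap bp _ hp) (HDTR 5 q 5 gQ aq bq _ hq) hfull (add_neg_cancel _)
    (add_neg_cancel _)

theorem finB (hNOB : ST_NOB) {p q : Fin 5 → ℂ} {ap bp aq bq : ℤ → ℝ} (hmax : MaxPair p q)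
    (hp : HD p 4 gB ap bp) (hq : HD q 5 gQ aq bq) (hfull : ∀ k, aq k < bq k) : False :=
  hNOB (fun i => p i + -(p 0)) (fun i => q i + -(q 0)) ap bp aq bq (MaxPair.shift hmax _ _)
    (HDTR 5 p 4 gB ap bp _ hp) (HDTR 5 q 5 gQ aq bq _ hq) hfull (add_neg_cancel _)
    (add_neg_cancel _)

/-- the six cases -/
theorem core (hNOC : ST_NOC) (hNOB : ST_NOB) {p q : Fin 5 → ℂ} {g : ℤ → Fin 5}
    {ap bp aq bq : ℤ → ℝ} (hmax : MaxPair p q)
    (hp : HD p 4 g ap bp) (hq : HD q 5 gQ aq bq) (hfull : ∀ k, aq k < bq k)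
    (hub : ∀ k, g k ≠ 0) (h0 : g 0 = 1) (hs1 : ¬ SameOrd g 4 gQ 5)
    (hs2 : ¬ SameOrd g 4 (fun k => gQ (-k)) 5) : False := by
  have hg : ∀ k, g (k + 4) = g k := fun k => by have := hp.gper k; exact_mod_cast this
  have hne : ∀ k l : ℤ, ¬ (4 : ℤ) ∣ l - k → g k ≠ g l := fun k l h1 h2 =>
    h1 (by have := hp.ginj k l h2; exact_mod_cast this)
  have hgr : ∀ k, g (-(k + 4)) = g (-k) := fun k => by
    rw [← hg (-(k + 4))]
    congr 1
    ring
  have hr := HDREF 5 p 4 g ap bp hp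
  have hmr := MaxPair.conjp hmax
  rcases six (g 1) (g 2) (g 3) (hub 1) (hub 2) (hub 3)
    (fun h => hne 1 0 (by norm_num) (h.trans h0.symm))
    (fun h => hne 2 0 (by norm_num) (h.trans h0.symm))
    (fun h => hne 3 0 (by norm_num) (h.trans h0.symm)) (hne 1 2 (by norm_num))
    (hne 1 3 (by norm_num)) (hne 2 3 (by norm_num)) with
    ⟨h1, h2, h3⟩ | ⟨h1, h2, h3⟩ | ⟨h1, h2, h3⟩ | ⟨h1, h2, h3⟩ | ⟨h1, h2, h3⟩ | ⟨h1, h2, h3⟩
  · exact hs1 (same1 hg h0 h1 h2 h3)
  · exact hs2 (same2 hg h0 h1 h2 h3)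
  · have : g = gC := eq4 hg gC_per h0 h1 h2 h3
    rw [this] at hp
    exact finC hNOC hmax hp hq hfull
  · have : (fun k => g (-k)) = gC := by
      refine eq4 hgr gC_per h0 ?_ ?_ ?_
      · show g (-1) = gC 1
        rw [← hg (-1)]
        exact h3
      · show g (-2) = gC 2
        rw [← hg (-2)]
        exact h2
      · show g (-3) = gC 3
        rw [← hg (-3)]
        exact h1
    rw [this] at hr
    exact finC hNOC hmr hr hq hfull
  · have : g = gB := eq4 hg gB_per h0 h1 h2 h3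
    rw [this] at hp
    exact finB hNOB hmax hp hq hfull
  · have : (fun k => g (-k)) = gB := by
      refine eq4 hgr gB_per h0 ?_ ?_ ?_
      · show g (-1) = gB 1
        rw [← hg (-1)]
        exact h3
      · show g (-2) = gB 2
        rw [← hg (-2)]
        exact h2
      · show g (-3) = gB 3
        rw [← hg (-3)]
        exact h1
    rw [this] at hr
    exact finB hNOB hmr hr hq hfull

end H33

open H33 in
theorem WNORM : ST_WNORM := by
  classical
  intro hNOC hNOB p q gp ap bp gq aq bq hmax hp hq hfull hs1 hs2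
  -- the hub
  obtain ⟨o, ho⟩ : ∃ o : Fin 5, ∀ k, gp k ≠ o := by
    by_contra hno
    push Not at hno
    have hsurj : Function.Surjective (fun r : Fin 4 => gp (r.val : ℤ)) := by
      intro i
      obtain ⟨k, hk⟩ := hno i
      obtain ⟨r, hr, hr2⟩ := exists_nat (M := 4) (by norm_num) hp.gper k
      exact ⟨⟨r, hr⟩, hr2.trans hk⟩
    have := Fintype.card_le_of_surjective _ hsurj
    simp at this
  -- shift of `q`
  obtain ⟨s, hs⟩ := surj_full (n := 5) (by norm_num) hq.gper hq.ginj o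
  have hq1 := HDSHIFT 5 q 5 gq aq bq s hq
  -- relabelling
  have hinj : Function.Injective (fun i : Fin 5 => gq ((i.val : ℤ) + s)) := by
    intro i j hij
    obtain ⟨z, hz⟩ := hq.ginj _ _ hij
    have h1 := i.isLt
    have h2 := j.isLt
    apply Fin.ext
    push_cast at hz
    omega
  let σ : Equiv.Perm (Fin 5) := Equiv.ofBijective _ (Finite.injective_iff_bijective.1 hinj)
  have hσ : ∀ i : Fin 5, σ i = gq ((i.val : ℤ) + s) := fun i => rfl
  have hgQ : ∀ k, ((gQ k).val : ℤ) = k % 5 := by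
    intro k
    unfold gQ
    rcases (by omega : k % 5 = 0 ∨ k % 5 = 1 ∨ k % 5 = 2 ∨ k % 5 = 3 ∨ k % 5 = 4) with
      h | h | h | h | h
    · rw [h]; rfl
    · rw [h]; rfl
    · rw [h]; rfl
    · rw [h]; rfl
    · rw [h]; rfl
  have hσQ : ∀ k, σ (gQ k) = gq (k + s) := by
    intro k
    rw [hσ, hgQ]
    have h1 := per_mul (n := 5) hq.gper (k % 5 + s) (k / 5)
    rw [← h1]
    congr 1
    push_cast
    omega
  have hq2 := HDPERM 5 q 5 _ _ _ σ hq1
  have hq3 : (fun k => σ.symm (gq (k + s))) = gQ := by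
    funext k
    rw [← hσQ, Equiv.symm_apply_apply]
  rw [hq3] at hq2
  -- shift of `p`
  have h01 : σ 0 = o := by
    rw [hσ]
    simpa using hs
  obtain ⟨t, ht⟩ : ∃ t, gp t = σ 1 := by
    by_contra hno
    push Not at hno
    have hne : σ 1 ≠ o := by
      rw [← h01]
      intro h
      exact absurd (σ.injective h) (by decide)
    -- the range of `gp` misses two points
    have hinj4 : Function.Injective (fun r : Fin 4 => gp (r.val : ℤ)) := by
      intro i j hij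
      obtain ⟨z, hz⟩ := hp.ginj _ _ hij
      have h1 := i.isLt
      have h2 := j.isLt
      apply Fin.ext
      push_cast at hz
      omega
    have hcard : (Finset.univ.image (fun r : Fin 4 => gp (r.val : ℤ))).card = 4 := by
      rw [Finset.card_image_of_injective _ hinj4]
      simp
    have hsub : Finset.univ.image (fun r : Fin 4 => gp (r.val : ℤ)) ⊆
        (Finset.univ.erase o).erase (σ 1) := by
      intro i hi
      rw [Finset.mem_image] at hi
      obtain ⟨r, _, hr⟩ := hi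
      rw [Finset.mem_erase, Finset.mem_erase]
      refine ⟨?_, ?_, Finset.mem_univ _⟩
      · rw [← hr]; exact hno _
      · rw [← hr]; exact ho _
    have hle := Finset.card_le_card hsub
    rw [hcard, Finset.card_erase_of_mem (Finset.mem_erase.2 ⟨hne, Finset.mem_univ _⟩),
      Finset.card_erase_of_mem (Finset.mem_univ _)] at hle
    simp at hle
  have hp1 := HDSHIFT 5 p 4 gp ap bp t hp
  have hp2 := HDPERM 5 p 4 _ _ _ σ hp1
  have hfull2 : ∀ k, aq (k + s) < bq (k + s) := fun k => hfull (k + s)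
  refine core hNOC hNOB (MaxPair.perm hmax σ) hp2 hq2 hfull2 (fun k hk => ?_) ?_ ?_ ?_
  · have : gp (k + t) = σ 0 := by rw [← hk, Equiv.apply_symm_apply]
    exact ho _ (this.trans h01)
  · show σ.symm (gp (0 + t)) = 1
    rw [zero_add, ht, Equiv.symm_apply_apply]
  · intro H
    exact hs1 (back σ t s (fun k => Equiv.apply_symm_apply _ _) hσQ H)
  · intro H
    refine hs2 (back σ t (-s) (fun k => Equiv.apply_symm_apply _ _) (fun k => ?_) H)
    show σ (gQ (-k)) = gq (-(k + -s))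
    rw [hσQ]
    congr 1
    ring

end E5
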